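import Mathlib

set_option autoImplicit false

namespace Pool.Agent.H62.Decomp

open SimpleGraph

universe u v w

/-- The Ramsey number `r(G, T)`: the least `r` such that every graph `C` on `r` vertices (the graph
of the edges of colour 1 of a 2-colouring of the edges of `K_r`; the edges of colour 2 are those of
`Cᶜ`) contains a copy of `G`, or its complement contains a copy of `T`. -/
noncomputable def ramsey {V : Type u} {W : Type v} (G : SimpleGraph V) (T : SimpleGraph W) : ℕ :=
  sInf {r : ℕ | ∀ C : SimpleGraph (Fin r), G ⊑ C ∨ T ⊑ Cᶜ}

/-- `ContainsMember G C`: the graph `C` contains a copy of at least one member of the decomposition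
class of `G`, i.e. of a graph induced by the union of two distinct colour classes of a proper
colouring of `G` with exactly `χ(G)` colours. -/
def ContainsMember {V : Type u} {W : Type v} (G : SimpleGraph V) (C : SimpleGraph W) : Prop :=
  ∃ (c : G.Coloring (Fin G.chromaticNumber.toNat)) (i j : Fin G.chromaticNumber.toNat),
    Function.Surjective c ∧ i ≠ j ∧ (G.induce {x | c x = i ∨ c x = j}) ⊑ C

/-- The Ramsey number `r(B(G), T)` of the decomposition class `B(G)` of `G` versus `T`. -/
noncomputable def classRamsey {V : Type u} {W : Type v} (G : SimpleGraph V) (T : SimpleGraph W) :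
    ℕ :=
  sInf {r : ℕ | ∀ C : SimpleGraph (Fin r), ContainsMember G C ∨ T ⊑ Cᶜ}

/-- `G` satisfies the decomposition formula. -/
def SatisfiesFormula {V : Type u} (G : SimpleGraph V) : Prop :=
  ∃ n₀ : ℕ, ∀ n : ℕ, n₀ ≤ n → ∀ T : SimpleGraph (Fin n), T.IsTree →
    ramsey G T = (G.chromaticNumber.toNat - 2) * (n - 1) + classRamsey G T

end Pool.Agent.H62.Decomp
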