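import Mathlib
import Pool.Agent.H62.Decomp.Defs

set_option autoImplicit false

namespace Pool.Agent.H62.Decomp

open SimpleGraph Finset

universe u v w

/-- Finite Ramsey theorem for two colours. -/
lemma ramsey_exists (a b : ℕ) : ∃ N : ℕ, ∀ {V : Type} [DecidableEq V] (C : SimpleGraph V)
    (s : Finset V), N ≤ s.card → (∃ t ⊆ s, C.IsNClique a t) ∨ (∃ t ⊆ s, Cᶜ.IsNClique b t) := by
  classical
  induction a generalizing b with
  | zero =>
    refine ⟨0, fun C s _ => Or.inl ⟨∅, by simp, ?_⟩⟩
    rw [isNClique_iff]; simp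
  | succ a iha =>
    induction b with
    | zero =>
      refine ⟨0, fun C s _ => Or.inr ⟨∅, by simp, ?_⟩⟩
      rw [isNClique_iff]; simp
    | succ b ihb =>
      obtain ⟨N1, h1⟩ := iha (b + 1)
      obtain ⟨N2, h2⟩ := ihb
      refine ⟨N1 + N2 + 1, fun {V} _ C s hs => ?_⟩
      have hne : s.Nonempty := by
        rw [← Finset.card_pos]; omega
      obtain ⟨v, hv⟩ := hne
      have hcard : (s.erase v).card = ((s.erase v).filter (fun w => C.Adj v w)).card +
          ((s.erase v).filter (fun w => ¬ C.Adj v w)).card := by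
        rw [Finset.card_filter_add_card_filter_not]
      have hs' : N1 + N2 ≤ (s.erase v).card := by
        rw [Finset.card_erase_of_mem hv]; omega
      have hor : N1 ≤ ((s.erase v).filter (fun w => C.Adj v w)).card ∨
          N2 ≤ ((s.erase v).filter (fun w => ¬ C.Adj v w)).card := by omega
      rcases hor with h | h
      · rcases h1 C _ h with ⟨t, ht, hc⟩ | ⟨t, ht, hc⟩
        · left
          refine ⟨insert v t, ?_, ?_⟩
          · intro x hx
            rcases Finset.mem_insert.mp hx with rfl | hx
            · exact hv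
            · exact Finset.mem_of_mem_erase (Finset.mem_filter.mp (ht hx)).1
          · apply hc.insert
            intro x hx
            exact (Finset.mem_filter.mp (ht hx)).2
        · right
          exact ⟨t, fun x hx => Finset.mem_of_mem_erase (Finset.mem_filter.mp (ht hx)).1, hc⟩
      · rcases h2 C _ h with ⟨t, ht, hc⟩ | ⟨t, ht, hc⟩
        · left
          exact ⟨t, fun x hx => Finset.mem_of_mem_erase (Finset.mem_filter.mp (ht hx)).1, hc⟩
        · right
          refine ⟨insert v t, ?_, ?_⟩
          · intro x hx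
            rcases Finset.mem_insert.mp hx with rfl | hx
            · exact hv
            · exact Finset.mem_of_mem_erase (Finset.mem_filter.mp (ht hx)).1
          · apply hc.insert
            intro x hx
            rw [compl_adj]
            have := Finset.mem_filter.mp (ht hx)
            exact ⟨(Finset.ne_of_mem_erase this.1).symm, this.2⟩

lemma contained_of_clique {V : Type u} {W : Type v} [Fintype V] (G : SimpleGraph V)
    (C : SimpleGraph W) (t : Finset W) (ht : C.IsNClique (Fintype.card V) t) : G ⊑ C := by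
  classical
  have hc : Fintype.card V = Fintype.card t := by
    rw [Fintype.card_coe, ht.card_eq]
  let e : V ≃ t := Fintype.equivOfCardEq hc
  refine ⟨⟨⟨fun x => (e x : W), ?_⟩, ?_⟩⟩
  · intro x y hxy
    apply ht.isClique (e x).2 (e y).2
    intro h
    exact hxy.ne (e.injective (Subtype.ext h))
  · intro x y h
    exact e.injective (Subtype.ext h)

lemma ramsey_nonempty {V : Type u} {W : Type v} [Fintype V] [Fintype W] (G : SimpleGraph V)
    (T : SimpleGraph W) : {r : ℕ | ∀ C : SimpleGraph (Fin r), G ⊑ C ∨ T ⊑ Cᶜ}.Nonempty := by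
  obtain ⟨N, hN⟩ := ramsey_exists (Fintype.card V) (Fintype.card W)
  refine ⟨N, fun C => ?_⟩
  rcases hN C Finset.univ (by simp) with ⟨t, _, ht⟩ | ⟨t, _, ht⟩
  · exact Or.inl (contained_of_clique G C t ht)
  · exact Or.inr (contained_of_clique T Cᶜ t ht)

/-- canonical colouring -/
lemma exists_surj_coloring {V : Type u} [Fintype V] (G : SimpleGraph V) :
    ∃ c : G.Coloring (Fin G.chromaticNumber.toNat), Function.Surjective c := by
  have hne : G.chromaticNumber ≠ ⊤ := by
    rw [chromaticNumber_ne_top_iff_exists]
    exact ⟨_, G.colorable_of_fintype⟩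
  have hcol : G.Colorable G.chromaticNumber.toNat := by
    apply G.colorable_chromaticNumber_of_fintype.mono
    exact le_refl _
  obtain ⟨c⟩ := hcol
  refine ⟨c, ?_⟩
  have h1 : ((G.chromaticNumber.toNat : ℕ) : ℕ∞) = G.chromaticNumber := ENat.natCast_toNat hne
  have h2 := (card_le_chromaticNumber_iff_forall_surjective (G := G) (α := Fin G.chromaticNumber.toNat)).mp
  exact h2 (by rw [Fintype.card_fin, h1]) c

lemma containsMember_of_contained {V : Type u} {W : Type v} [Fintype V] (G : SimpleGraph V)
    (hk : 2 ≤ G.chromaticNumber.toNat) (C : SimpleGraph W) (h : G ⊑ C) : ContainsMember G C := by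
  obtain ⟨c, hc⟩ := exists_surj_coloring G
  refine ⟨c, ⟨0, by omega⟩, ⟨1, by omega⟩, hc, by simp, ?_⟩
  exact IsContained.trans ⟨Copy.induce G _⟩ h

lemma classRamsey_nonempty {V : Type u} {W : Type v} [Fintype V] [Fintype W] (G : SimpleGraph V)
    (hk : 2 ≤ G.chromaticNumber.toNat) (T : SimpleGraph W) :
    {r : ℕ | ∀ C : SimpleGraph (Fin r), ContainsMember G C ∨ T ⊑ Cᶜ}.Nonempty := by
  obtain ⟨r, hr⟩ := ramsey_nonempty G T
  refine ⟨r, fun C => ?_⟩
  rcases hr C with h | h
  · exact Or.inl (containsMember_of_contained G hk C h)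
  · exact Or.inr h

end Pool.Agent.H62.Decomp
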