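import Mathlib
import Pool.Agent.H62.Decomp.Basic

set_option autoImplicit false

namespace Pool.Agent.H62.Decomp

open SimpleGraph Finset

universe u v w

/-- the vertex set of the construction -/
abbrev X (n k M : ℕ) : Type := Fin n ⊕ ((Fin k × Fin (n - 1)) ⊕ Fin M)

/-- adjacency of the construction -/
def adjX {n k M : ℕ} (H : SimpleGraph (Fin M)) : X n k M → X n k M → Prop
  | Sum.inl a, Sum.inl b => a ≠ b ∧ (a : ℕ) / 2 = (b : ℕ) / 2
  | Sum.inl _, Sum.inr _ => True
  | Sum.inr _, Sum.inl _ => True
  | Sum.inr (Sum.inl p), Sum.inr (Sum.inl q) => p.1 ≠ q.1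
  | Sum.inr (Sum.inl _), Sum.inr (Sum.inr _) => True
  | Sum.inr (Sum.inr _), Sum.inr (Sum.inl _) => True
  | Sum.inr (Sum.inr x), Sum.inr (Sum.inr y) => H.Adj x y

/-- the graph of colour 1 of the construction -/
def D {n k M : ℕ} (H : SimpleGraph (Fin M)) : SimpleGraph (X n k M) where
  Adj := adjX H
  symm := ⟨by
    rintro (a | p | x) (b | q | y) h <;> simp only [adjX] at h ⊢
    · exact ⟨h.1.symm, h.2.symm⟩
    · exact h.symm
    · exact h.symm⟩
  loopless := ⟨by
    rintro (a | p | x) h
    · exact h.1 rfl
    · exact h rfl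
    · exact H.irrefl h⟩

lemma star_copy {n : ℕ} {W : Type v} [DecidableEq W] (r : Fin n) {C : SimpleGraph W}
    (f : Copy (starGraph r) C) :
    ∃ s : Finset W, n - 1 ≤ s.card ∧ ∀ w ∈ s, C.Adj (f r) w := by
  have hinj : Function.Injective (fun x => f x) := f.injective
  refine ⟨(Finset.univ.erase r).image (fun x => f x), ?_, ?_⟩
  · rw [Finset.card_image_of_injective _ hinj, Finset.card_erase_of_mem (Finset.mem_univ r)]
    simp
  · intro w hw
    obtain ⟨x, hx, rfl⟩ := Finset.mem_image.mp hw
    have hx' : r ≠ x := (Finset.ne_of_mem_erase hx).symm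
    exact f.toHom.map_adj (starGraph_center_adj hx')

lemma no_star {n k M : ℕ} (hn : 2 ≤ n) (heven : Even n) (r : Fin n) (H : SimpleGraph (Fin M))
    (hH : ¬ (starGraph r ⊑ Hᶜ)) : ¬ (starGraph r ⊑ (D H : SimpleGraph (X n k M))ᶜ) := by
  classical
  rintro ⟨f⟩
  obtain ⟨s, hs, hadj⟩ := star_copy r f
  rcases hfr : f r with a | p | x
  · -- center in the matching part
    rw [hfr] at hadj
    -- partner of `a`
    obtain ⟨b, hb1, hb2⟩ : ∃ b : Fin n, b ≠ a ∧ (a : ℕ) / 2 = (b : ℕ) / 2 := by
      obtain ⟨m, hm⟩ := heven
      have ha := a.isLt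
      rcases Nat.even_or_odd' (a : ℕ) with ⟨c, hc | hc⟩
      · refine ⟨⟨(a : ℕ) + 1, by omega⟩, ?_, ?_⟩
        · intro h
          have := congrArg Fin.val h
          simp at this
        · simp only
          omega
      · refine ⟨⟨(a : ℕ) - 1, by omega⟩, ?_, ?_⟩
        · intro h
          have := congrArg Fin.val h
          simp at this
          omega
        · simp only
          omega
    have hsub : s ⊆ ((Finset.univ.erase a).erase b).image (Sum.inl : Fin n → X n k M) := by
      intro w hw
      have h := hadj w hw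
      rw [compl_adj] at h
      rcases w with c | q | y
      · rw [Finset.mem_image]
        refine ⟨c, ?_, rfl⟩
        rw [Finset.mem_erase, Finset.mem_erase]
        refine ⟨?_, ?_, Finset.mem_univ _⟩
        · rintro rfl
          exact h.2 ⟨hb1.symm, hb2⟩
        · rintro rfl
          exact h.1 rfl
      · exact absurd trivial h.2
      · exact absurd trivial h.2
    have h1 := Finset.card_le_card hsub
    have h2 := (Finset.card_image_le (s := (Finset.univ.erase a).erase b) (f := (Sum.inl : Fin n → X n k M)))
    rw [Finset.card_erase_of_mem (by simp [hb1]), Finset.card_erase_of_mem (by simp)] at h2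
    simp at h2
    omega
  · -- center in an independent part
    rw [hfr] at hadj
    have hsub : s ⊆ (Finset.univ.erase p.2).image (fun z => (Sum.inr (Sum.inl (p.1, z)) : X n k M)) := by
      intro w hw
      have h := hadj w hw
      rw [compl_adj] at h
      rcases w with c | q | y
      · exact absurd trivial h.2
      · have h3 : p.1 = q.1 := by
          by_contra hne
          exact h.2 hne
        rw [Finset.mem_image]
        refine ⟨q.2, ?_, ?_⟩
        · rw [Finset.mem_erase]
          refine ⟨?_, Finset.mem_univ _⟩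
          intro h4
          apply h.1
          have : p = q := Prod.ext h3 h4.symm
          rw [this]
        · rw [h3]
      · exact absurd trivial h.2
    have h1 := Finset.card_le_card hsub
    have h2 := (Finset.card_image_le (s := Finset.univ.erase p.2)
      (f := fun z => (Sum.inr (Sum.inl (p.1, z)) : X n k M)))
    rw [Finset.card_erase_of_mem (by simp)] at h2
    simp at h2
    have := p.2.isLt
    omega
  · -- center in the last part
    apply hH
    have hall : ∀ z : Fin n, ∃ y : Fin M, f z = Sum.inr (Sum.inr y) := by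
      intro z
      by_cases hz : z = r
      · exact ⟨x, by rw [hz, hfr]⟩
      · have h : (D H : SimpleGraph (X n k M))ᶜ.Adj (f r) (f z) :=
          f.toHom.map_adj (starGraph_center_adj (fun h => hz h.symm))
        rw [hfr, compl_adj] at h
        rcases hfz : f z with c | q | y
        · rw [hfz] at h; exact absurd trivial h.2
        · rw [hfz] at h; exact absurd trivial h.2
        · exact ⟨y, rfl⟩
    choose g hg using hall
    refine ⟨⟨⟨g, ?_⟩, ?_⟩⟩
    · intro y z hyz
      have h : (D H : SimpleGraph (X n k M))ᶜ.Adj (f y) (f z) := f.toHom.map_adj hyz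
      rw [compl_adj] at h ⊢
      rw [hg y, hg z] at h
      exact ⟨fun h' => h.1 (by rw [h']), h.2⟩
    · intro y z hyz
      have hinj : Function.Injective (fun x => f x) := f.injective
      apply hinj
      have hyz' : g y = g z := hyz
      show f y = f z
      rw [hg y, hg z, hyz']

/-- the label of the part containing a vertex -/
def lab (K : ℕ) {n k M : ℕ} : X n k M → ℕ
  | Sum.inl _ => 0
  | Sum.inr (Sum.inl p) => (p.1 : ℕ) + 1
  | Sum.inr (Sum.inr _) => K - 2

/-- The necessary condition. -/
theorem necessary {V : Type u} [Fintype V] (G : SimpleGraph V) (hk : 3 ≤ G.chromaticNumber.toNat)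
    (hG : SatisfiesFormula G) :
    ∃ s : V → ℕ, (∀ x, s x ≤ G.chromaticNumber.toNat - 2) ∧
      (∀ x y z, s x = 0 → s y = 0 → s z = 0 → G.Adj x y → G.Adj x z → y = z) ∧
      (∀ x y, 1 ≤ s x → s x ≤ G.chromaticNumber.toNat - 3 → s x = s y → ¬ G.Adj x y) ∧
      ¬ ContainsMember G (G.induce {x | s x = G.chromaticNumber.toNat - 2}) := by
  classical
  obtain ⟨n₀, hn₀⟩ := hG
  set k := G.chromaticNumber.toNat with hkdef
  obtain ⟨n, hn1, hn2, heven⟩ : ∃ n, n₀ ≤ n ∧ 2 ≤ n ∧ Even n :=
    ⟨2 * (n₀ + 1), by omega, by omega, even_two_mul _⟩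
  have hn0' : 0 < n := by omega
  let r : Fin n := ⟨0, hn0'⟩
  have hform := hn₀ n hn1 (starGraph r) (isTree_starGraph r)
  have hr1 := Nat.sInf_mem (ramsey_nonempty G (starGraph r))
  have hne2 := classRamsey_nonempty G (by omega) (starGraph r)
  have hpos : 1 ≤ classRamsey G (starGraph r) := by
    by_contra hcon
    have h0 : classRamsey G (starGraph r) = 0 := by omega
    have hmem : classRamsey G (starGraph r) ∈
      {r' : ℕ | ∀ C : SimpleGraph (Fin r'), ContainsMember G C ∨ (starGraph r) ⊑ Cᶜ} :=
      Nat.sInf_mem hne2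
    rw [h0] at hmem
    rcases hmem ⊥ with h | h
    · obtain ⟨c, i, j, hc, _, ⟨f⟩⟩ := h
      obtain ⟨x, hx⟩ := hc i
      exact (f ⟨x, Or.inl hx⟩).elim0
    · obtain ⟨f⟩ := h
      exact (f r).elim0
  obtain ⟨M, hM⟩ : ∃ M, classRamsey G (starGraph r) = M + 1 := ⟨_, (Nat.sub_add_cancel hpos).symm⟩
  have hMnot : M ∉ {r' : ℕ | ∀ C : SimpleGraph (Fin r'), ContainsMember G C ∨ (starGraph r) ⊑ Cᶜ} := by
    apply Nat.notMem_of_lt_sInf
    change M < classRamsey G (starGraph r)
    omega
  simp only [Set.mem_ofPred_eq, not_forall, not_or] at hMnot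
  obtain ⟨H, hH1, hH2⟩ := hMnot
  -- the construction has exactly `ramsey` vertices
  have hcard : Fintype.card (X n (k - 3) M) = ramsey G (starGraph r) := by
    simp only [X, Fintype.card_sum, Fintype.card_prod, Fintype.card_fin]
    rw [hform, hM]
    obtain ⟨j, hj⟩ : ∃ j, k = j + 3 := ⟨k - 3, by omega⟩
    obtain ⟨m, hm⟩ : ∃ m, n = m + 1 := ⟨n - 1, by omega⟩
    rw [hj, hm]
    simp only [Nat.add_sub_cancel]
    rw [show j + 3 - 2 = j + 1 by omega]
    ring
  let e : X n (k - 3) M ≃ Fin (ramsey G (starGraph r)) := Fintype.equivFinOfCardEq hcard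
  let D' : SimpleGraph (Fin (ramsey G (starGraph r))) := (D H : SimpleGraph (X n (k - 3) M)).map e.toEmbedding
  have iso : (D H : SimpleGraph (X n (k - 3) M)) ≃g D' := Iso.map e _
  rcases hr1 D' with h | h
  · -- `G` is contained in colour 1
    have h' : G ⊑ (D H : SimpleGraph (X n (k - 3) M)) := IsContained.trans h ⟨iso.symm.toCopy⟩
    obtain ⟨f⟩ := h'
    refine ⟨fun x => lab k (f x), ?_, ?_, ?_, ?_⟩
    · intro x
      rcases hfx : f x with a | p | y
      · simp [hfx, lab]
      · simp only [hfx, lab]
        have := p.1.isLt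
        omega
      · simp [hfx, lab]
    · intro x y z hx hy hz hxy hxz
      rcases hfx : f x with a | p | a
      swap
      · simp [hfx, lab] at hx
      swap
      · simp only [hfx, lab] at hx
        omega
      rcases hfy : f y with b | p | b
      swap
      · simp [hfy, lab] at hy
      swap
      · simp only [hfy, lab] at hy
        omega
      rcases hfz : f z with c | p | c
      swap
      · simp [hfz, lab] at hz
      swap
      · simp only [hfz, lab] at hz
        omega
      have h1 : (D H : SimpleGraph (X n (k - 3) M)).Adj (f x) (f y) := f.toHom.map_adj hxy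
      have h2 : (D H : SimpleGraph (X n (k - 3) M)).Adj (f x) (f z) := f.toHom.map_adj hxz
      rw [hfx, hfy] at h1
      rw [hfx, hfz] at h2
      have h1' : a ≠ b ∧ (a : ℕ) / 2 = (b : ℕ) / 2 := h1
      have h2' : a ≠ c ∧ (a : ℕ) / 2 = (c : ℕ) / 2 := h2
      have h3 : (a : ℕ) ≠ b := fun h => h1'.1 (Fin.ext h)
      have h4 : (a : ℕ) ≠ c := fun h => h2'.1 (Fin.ext h)
      have h5 : b = c := by
        apply Fin.ext
        omega
      have hinj : Function.Injective (fun x => f x) := f.injective
      apply hinj
      show f y = f z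
      rw [hfy, hfz, h5]
    · intro x y hx1 hx2 hxy hadj
      rcases hfx : f x with a | p | a
      · simp [hfx, lab] at hx1
      swap
      · simp only [hfx, lab] at hx2
        omega
      rcases hfy : f y with b | q | b
      · simp [hfx, hfy, lab] at hxy
      swap
      · simp only [hfx, hfy, lab] at hxy
        have := p.1.isLt
        omega
      simp only [hfx, hfy, lab] at hxy
      have h1 : (D H : SimpleGraph (X n (k - 3) M)).Adj (f x) (f y) := f.toHom.map_adj hadj
      rw [hfx, hfy] at h1
      have h2 : p.1 ≠ q.1 := h1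
      apply h2
      apply Fin.ext
      omega
    · rintro ⟨c, i, j, hc, hij, hcont⟩
      apply hH1
      refine ⟨c, i, j, hc, hij, IsContained.trans hcont ?_⟩
      -- the last part embeds in `H`
      have hlast : ∀ x : {x | lab k (f x) = k - 2}, ∃ y : Fin M, f x = Sum.inr (Sum.inr y) := by
        rintro ⟨x, hx⟩
        have hx' : lab k (f x) = k - 2 := hx
        rcases hfx : f x with a | p | y
        · rw [hfx] at hx'
          simp only [lab] at hx'
          omega
        · rw [hfx] at hx'
          simp only [lab] at hx'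
          have := p.1.isLt
          omega
        · exact ⟨y, rfl⟩
      choose g hg using hlast
      refine ⟨⟨⟨g, ?_⟩, ?_⟩⟩
      · intro x y hxy
        have h1 : (D H : SimpleGraph (X n (k - 3) M)).Adj (f x) (f y) := f.toHom.map_adj hxy
        rw [hg x, hg y] at h1
        exact h1
      · intro x y hxy
        apply Subtype.ext
        have hinj : Function.Injective (fun x => f x) := f.injective
        apply hinj
        have hxy' : g x = g y := hxy
        show f x = f y
        rw [hg x, hg y, hxy']
  · exfalso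
    apply no_star hn2 heven r H hH2 (k := k - 3)
    refine IsContained.trans h ⟨?_⟩
    have iso' : D'ᶜ ≃g (D H : SimpleGraph (X n (k - 3) M))ᶜ := by
      refine ⟨iso.symm.toEquiv, ?_⟩
      intro a b
      rw [compl_adj, compl_adj]
      constructor
      · rintro ⟨h1, h2⟩
        refine ⟨fun h => h1 (by rw [h]), fun h => h2 ?_⟩
        exact iso.symm.map_adj_iff.mpr h
      · rintro ⟨h1, h2⟩
        refine ⟨fun h => h1 (iso.symm.toEquiv.injective h), fun h => h2 ?_⟩
        exact iso.symm.map_adj_iff.mp h
    exact iso'.toCopy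

end Pool.Agent.H62.Decomp
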