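import Mathlib
import Pool.Agent.H62.Decomp.Main

set_option autoImplicit false

namespace Pool.Agent.H62.Decomp

open SimpleGraph Finset

lemma chi_multi {k : ℕ} (m : Fin k → ℕ) (hm : ∀ i, 1 ≤ m i) :
    (completeMultipartiteGraph (fun i => Fin (m i))).chromaticNumber.toNat = k := by
  rw [completeMultipartiteGraph.chromaticNumber (fun i => Fin (m i)) (fun i => ⟨0, hm i⟩)]
  simp

lemma member_of_map {k : ℕ} (m : Fin k → ℕ) (hm : ∀ i, 1 ≤ m i) (S : Set (Σ i, Fin (m i)))
    (p r : Fin k) (hpr : p ≠ r) (g : (Σ i, Fin (m i)) → (Σ i, Fin (m i)))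
    (hgS : ∀ v, v.1 = p ∨ v.1 = r → g v ∈ S)
    (hinj : ∀ v w, (v.1 = p ∨ v.1 = r) → (w.1 = p ∨ w.1 = r) → g v = g w → v = w)
    (hadj : ∀ v w, v.1 = p → w.1 = r → (g v).1 ≠ (g w).1) :
    ContainsMember (completeMultipartiteGraph (fun i => Fin (m i)))
      ((completeMultipartiteGraph (fun i => Fin (m i))).induce S) := by
  have hχ := chi_multi m hm
  let e : Fin k ≃ Fin (completeMultipartiteGraph (fun i => Fin (m i))).chromaticNumber.toNat :=
    finCongr hχ.symm
  refine ⟨Coloring.mk (fun v => e v.1) ?_, e p, e r, ?_, ?_, ?_⟩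
  · intro v w hvw h
    exact hvw (e.injective h)
  · intro i
    exact ⟨⟨e.symm i, ⟨0, hm _⟩⟩, e.apply_symm_apply i⟩
  · intro h
    exact hpr (e.injective h)
  · have hmem : ∀ v : {x : Σ i, Fin (m i) | (Coloring.mk (fun v => e v.1) (by
        intro v w hvw h
        exact hvw (e.injective h)) : (completeMultipartiteGraph (fun i => Fin (m i))).Coloring _) x = e p ∨
        (Coloring.mk (fun v => e v.1) (by
        intro v w hvw h
        exact hvw (e.injective h)) : (completeMultipartiteGraph (fun i => Fin (m i))).Coloring _) x = e r},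
        v.1.1 = p ∨ v.1.1 = r := by
      rintro ⟨v, hv⟩
      rcases hv with hv | hv
      · left; exact e.injective hv
      · right; exact e.injective hv
    refine ⟨⟨⟨fun v => ⟨g v.1, hgS v.1 (hmem v)⟩, ?_⟩, ?_⟩⟩
    · intro v w hvw
      have hne : v.1.1 ≠ w.1.1 := hvw
      show (g v.1).1 ≠ (g w.1).1
      rcases hmem v with hv | hv <;> rcases hmem w with hw | hw
      · exact absurd (hv.trans hw.symm) hne
      · exact hadj _ _ hv hw
      · exact (hadj _ _ hw hv).symm
      · exact absurd (hv.trans hw.symm) hne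
    · intro v w hvw
      apply Subtype.ext
      apply hinj _ _ (hmem v) (hmem w)
      exact congrArg Subtype.val hvw

/-- swapping one vertex -/
lemma member_swap {k : ℕ} (m : Fin k → ℕ) (hm : ∀ i, 1 ≤ m i) (S : Set (Σ i, Fin (m i)))
    (p q r : Fin k) (hpr : p ≠ r) (hpq : p ≠ q) (hqr : q ≠ r) (x y : Σ i, Fin (m i))
    (hy : y.1 = q) (hyS : y ∈ S) (hp : ∀ v : Σ i, Fin (m i), v.1 = p → v ≠ x → v ∈ S)
    (hr : ∀ v : Σ i, Fin (m i), v.1 = r → v ∈ S) (hx : x.1 = p) :
    ContainsMember (completeMultipartiteGraph (fun i => Fin (m i)))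
      ((completeMultipartiteGraph (fun i => Fin (m i))).induce S) := by
  classical
  apply member_of_map m hm S p r hpr (fun v => if v = x then y else v)
  · rintro v (hv | hv)
    · by_cases h : v = x
      · simp only [h, if_true]; exact hyS
      · simp only [h, if_false]; exact hp v hv h
    · have h : v ≠ x := by
        rintro rfl
        exact hpr (hx.symm.trans hv)
      simp only [h, if_false]
      exact hr v hv
  · intro v w hv hw hvw
    by_cases h1 : v = x <;> by_cases h2 : w = x
    · rw [h1, h2]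
    · simp only [h1, h2, if_true, if_false] at hvw
      exfalso
      rw [← hvw] at hw
      rcases hw with hw | hw
      · exact hpq (hw.symm.trans hy)
      · exact hqr (hy.symm.trans hw)
    · simp only [h1, h2, if_true, if_false] at hvw
      exfalso
      rw [hvw] at hv
      rcases hv with hv | hv
      · exact hpq (hv.symm.trans hy)
      · exact hqr (hy.symm.trans hv)
    · simpa only [h1, h2, if_false] using hvw
  · intro v w hv hw
    have h2 : w ≠ x := by
      rintro rfl
      exact hpr (hx.symm.trans hw)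
    by_cases h1 : v = x
    · simp only [h1, h2, if_true, if_false]
      rw [hy, hw]
      exact hqr
    · simp only [h1, h2, if_false]
      rw [hv, hw]
      exact hpr

theorem multipartite {k : ℕ} (hk : 3 ≤ k) (m : Fin k → ℕ) (hm : ∀ i, 1 ≤ m i)
    (hm2 : ∀ i j, i ≠ j → 2 ≤ m i ∨ 2 ≤ m j) :
    ¬ SatisfiesFormula (completeMultipartiteGraph (fun i => Fin (m i))) := by
  classical
  intro hG
  have hχ := chi_multi m hm
  obtain ⟨s, hs1, hs2, hs3, hs4⟩ := necessary _ (by rw [hχ]; exact hk) hG
  rw [hχ] at hs1 hs3 hs4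
  apply hs4
  set S : Set (Σ i, Fin (m i)) := {x | s x = k - 2} with hS
  have hadj : ∀ v w : Σ i, Fin (m i), (completeMultipartiteGraph (fun i => Fin (m i))).Adj v w ↔ v.1 ≠ w.1 := by
    intro v w; rfl
  -- parts meeting the independent labels
  let Q : Finset (Fin k) := Finset.univ.filter
    (fun i => ∃ v : Σ i, Fin (m i), v.1 = i ∧ 1 ≤ s v ∧ s v ≤ k - 3)
  have hQ : Q.card ≤ k - 3 := by
    have hsel : ∀ i ∈ Q, ∃ v : Σ i, Fin (m i), v.1 = i ∧ 1 ≤ s v ∧ s v ≤ k - 3 := by
      intro i hi
      exact (Finset.mem_filter.mp hi).2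
    have : Nonempty (Σ i, Fin (m i)) := ⟨⟨⟨0, by omega⟩, ⟨0, hm _⟩⟩⟩
    choose! sel hsel1 hsel2 hsel3 using hsel
    have : Q.card ≤ (Finset.Icc 1 (k - 3)).card := by
      apply Finset.card_le_card_of_injOn (fun i => s (sel i))
      · intro i hi
        rw [Finset.mem_coe, Finset.mem_Icc]
        exact ⟨hsel2 i hi, hsel3 i hi⟩
      · intro i hi j hj hij
        by_contra hne
        apply hs3 (sel i) (sel j) (hsel2 i hi) (hsel3 i hi) hij
        rw [hadj, hsel1 i hi, hsel1 j hj]
        exact hne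
    simpa using this
  let U : Finset (Fin k) := Finset.univ \ Q
  have hU : 3 ≤ U.card := by
    have : U.card = k - Q.card := by
      rw [Finset.card_sdiff_of_subset (Finset.subset_univ _)]
      simp
    omega
  have hUlab : ∀ i ∈ U, ∀ v : Σ i, Fin (m i), v.1 = i → s v = 0 ∨ s v = k - 2 := by
    intro i hi v hv
    by_contra hcon
    push Not at hcon
    have h1 := hs1 v
    have : i ∈ Q := by
      rw [Finset.mem_filter]
      exact ⟨Finset.mem_univ _, v, hv, by omega, by omega⟩
    exact (Finset.mem_sdiff.mp hi).2 this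
  -- parts in `U` without label zero
  let N : Finset (Fin k) := U.filter (fun i => ∀ v : Σ i, Fin (m i), v.1 = i → s v ≠ 0)
  by_cases hN : 2 ≤ N.card
  · obtain ⟨p, hp, r, hr, hpr⟩ := Finset.one_lt_card.mp hN
    have hp' := Finset.mem_filter.mp hp
    have hr' := Finset.mem_filter.mp hr
    apply member_of_map m hm S p r hpr id
    · rintro v (hv | hv)
      · exact (hUlab p hp'.1 v hv).resolve_left (hp'.2 v hv)
      · exact (hUlab r hr'.1 v hv).resolve_left (hr'.2 v hv)
    · intro v w _ _ h; exact h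
    · intro v w hv hw
      show v.1 ≠ w.1
      rw [hv, hw]; exact hpr
  · have hN' : 2 ≤ (U.filter (fun i => ¬ ∀ v : Σ i, Fin (m i), v.1 = i → s v ≠ 0)).card := by
      have := Finset.card_filter_add_card_filter_not (s := U)
        (fun i => ∀ v : Σ i, Fin (m i), v.1 = i → s v ≠ 0)
      have hNdef : N.card = (U.filter (fun i => ∀ v : Σ i, Fin (m i), v.1 = i → s v ≠ 0)).card := rfl
      omega
    obtain ⟨p, hp, q, hq, hpq⟩ := Finset.one_lt_card.mp hN'
    have hp' := Finset.mem_filter.mp hp
    have hq' := Finset.mem_filter.mp hq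
    obtain ⟨x, hx1, hx2⟩ : ∃ x : Σ i, Fin (m i), x.1 = p ∧ s x = 0 := by
      have := hp'.2
      push Not at this
      exact this
    obtain ⟨y, hy1, hy2⟩ : ∃ y : Σ i, Fin (m i), y.1 = q ∧ s y = 0 := by
      have := hq'.2
      push Not at this
      exact this
    have hxy : x.1 ≠ y.1 := by rw [hx1, hy1]; exact hpq
    have hzero : ∀ z : Σ i, Fin (m i), s z = 0 → z = x ∨ z = y := by
      intro z hz
      by_cases h : z.1 = p
      · left
        refine (hs2 y x z hy2 hx2 hz ?_ ?_).symm
        · rw [hadj]; exact hxy.symm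
        · rw [hadj, hy1, h]; exact hpq.symm
      · right
        refine (hs2 x y z hx2 hy2 hz ?_ ?_).symm
        · rw [hadj]; exact hxy
        · rw [hadj, hx1]; exact fun h' => h h'.symm
    obtain ⟨r, hrU, hrp, hrq⟩ : ∃ r ∈ U, r ≠ p ∧ r ≠ q := by
      have h1 : 0 < ((U.erase p).erase q).card := by
        have h2 := Finset.pred_card_le_card_erase (s := U) (a := p)
        have h3 := Finset.pred_card_le_card_erase (s := U.erase p) (a := q)
        omega
      obtain ⟨r, hr⟩ := Finset.card_pos.mp h1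
      rw [Finset.mem_erase, Finset.mem_erase] at hr
      exact ⟨r, hr.2.2, hr.2.1, hr.1⟩
    have hr : ∀ v : Σ i, Fin (m i), v.1 = r → v ∈ S := by
      intro v hv
      refine (hUlab r hrU v hv).resolve_left (fun h => ?_)
      rcases hzero v h with rfl | rfl
      · exact hrp (hv.symm.trans hx1)
      · exact hrq (hv.symm.trans hy1)
    have hpS : ∀ v : Σ i, Fin (m i), v.1 = p → v ≠ x → v ∈ S := by
      intro v hv hvx
      refine (hUlab p hp'.1 v hv).resolve_left (fun h => ?_)
      rcases hzero v h with h' | h'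
      · exact hvx h'
      · exact hpq (hv.symm.trans (by rw [h', hy1]))
    have hqS : ∀ v : Σ i, Fin (m i), v.1 = q → v ≠ y → v ∈ S := by
      intro v hv hvy
      refine (hUlab q hq'.1 v hv).resolve_left (fun h => ?_)
      rcases hzero v h with h' | h'
      · exact hpq.symm (hv.symm.trans (by rw [h', hx1]))
      · exact hvy h'
    have hother : ∀ (i : Fin k) (w : Σ i, Fin (m i)), w.1 = i → 2 ≤ m i →
        ∃ w' : Σ i, Fin (m i), w'.1 = i ∧ w' ≠ w := by
      rintro i ⟨i', w⟩ rfl h2
      simp only at h2 ⊢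
      by_cases h0 : (w : ℕ) = 0
      · refine ⟨⟨i', ⟨1, by omega⟩⟩, rfl, ?_⟩
        intro h
        have h3 := congrArg Fin.val (eq_of_heq (Sigma.mk.inj h).2)
        simp only at h3
        omega
      · refine ⟨⟨i', ⟨0, by omega⟩⟩, rfl, ?_⟩
        intro h
        have h3 := congrArg Fin.val (eq_of_heq (Sigma.mk.inj h).2)
        simp only at h3
        omega
    rcases hm2 p q hpq with h2 | h2
    · obtain ⟨x', hx'1, hx'2⟩ := hother p x hx1 h2
      exact member_swap m hm S q p r hrq.symm hpq.symm hrp.symm y x' hx'1 (hpS x' hx'1 hx'2) hqS hr hy1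
    · obtain ⟨y', hy'1, hy'2⟩ := hother q y hy1 h2
      exact member_swap m hm S p q r hrp.symm hpq hrq.symm x y' hy'1 (hqS y' hy'1 hy'2) hpS hr hx1

end Pool.Agent.H62.Decomp
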